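import Mathlib

/-! Moves between maximum partial transversals of a rectangular array (combinatorial part). -/

set_option linter.unusedSectionVars false

namespace LR

open Finset

section basic

variable {α β γ : Type*} [Fintype α] [Fintype β] [Fintype γ]
  [DecidableEq α] [DecidableEq β] [DecidableEq γ]

/-- partial transversal -/
def PT (R : α → β → γ) (T : Finset (α × β)) : Prop :=
  ∀ x ∈ T, ∀ y ∈ T, x ≠ y → x.1 ≠ y.1 ∧ x.2 ≠ y.2 ∧ R x.1 x.2 ≠ R y.1 y.2

/-- maximum partial transversal -/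
def MaxPT (R : α → β → γ) (T : Finset (α × β)) : Prop :=
  PT R T ∧ ∀ T', PT R T' → T'.card ≤ T.card

/-- covered rows -/
def rows (T : Finset (α × β)) : Finset α := T.image Prod.fst
/-- covered columns -/
def cols (T : Finset (α × β)) : Finset β := T.image Prod.snd

omit [Fintype α] [Fintype β] [DecidableEq β] in
lemma mem_rows {T : Finset (α × β)} {x : α × β} (hx : x ∈ T) : x.1 ∈ rows T :=
  mem_image_of_mem _ hx

omit [Fintype α] [Fintype β] [DecidableEq α] in
lemma mem_cols {T : Finset (α × β)} {x : α × β} (hx : x ∈ T) : x.2 ∈ cols T :=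
  mem_image_of_mem _ hx

/-- a state: a maximum partial transversal leaving the columns of `G` uncovered -/
def St (R : α → β → γ) (G : Finset β) (T : Finset (α × β)) : Prop :=
  MaxPT R T ∧ ∀ c ∈ G, c ∉ cols T

/-- a move -/
def Mv (R : α → β → γ) (G : Finset β) (T T' : Finset (α × β)) : Prop :=
  ∃ r c z d, (z, d) ∈ T ∧ r ∉ rows T ∧ c ∉ cols T ∧ c ∉ G ∧ R r c = R z d ∧
    T' = insert (r, c) (T.erase (z, d))

/-- reachability -/
def Reach (R : α → β → γ) (G : Finset β) : Finset (α × β) → Finset (α × β) → Prop :=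
  Relation.ReflTransGen (Mv R G)

variable {R : α → β → γ} {G : Finset β} {T T' T'' : Finset (α × β)}

lemma PT.eq1 (h : PT R T) {x y : α × β} (hx : x ∈ T) (hy : y ∈ T) (e : x.1 = y.1) : x = y := by
  by_contra hne; exact (h x hx y hy hne).1 e

lemma PT.eq2 (h : PT R T) {x y : α × β} (hx : x ∈ T) (hy : y ∈ T) (e : x.2 = y.2) : x = y := by
  by_contra hne; exact (h x hx y hy hne).2.1 e

lemma PT.eq3 (h : PT R T) {x y : α × β} (hx : x ∈ T) (hy : y ∈ T)
    (e : R x.1 x.2 = R y.1 y.2) : x = y := by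
  by_contra hne; exact (h x hx y hy hne).2.2 e

/-- rows of the moved state -/
lemma rows_move (h : PT R T) {r z : α} {c d : β} (hzd : (z, d) ∈ T) :
    rows (insert (r, c) (T.erase (z, d))) = insert r ((rows T).erase z) := by
  ext a
  simp only [rows, mem_image, mem_insert, mem_erase, ne_eq, Prod.exists, exists_and_right,
    exists_eq_right, Prod.mk.injEq]
  constructor
  · rintro ⟨e, (⟨rfl, rfl⟩ | ⟨h1, h2⟩)⟩
    · left; rfl
    · right
      refine ⟨?_, e, h2⟩
      rintro rfl
      exact h1 (by simpa using h.eq1 h2 hzd rfl)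
  · rintro (rfl | ⟨h1, e, h2⟩)
    · exact ⟨c, Or.inl ⟨rfl, rfl⟩⟩
    · exact ⟨e, Or.inr ⟨fun h3 => h1 h3.1, h2⟩⟩

lemma cols_move (h : PT R T) {r z : α} {c d : β} (hzd : (z, d) ∈ T) :
    cols (insert (r, c) (T.erase (z, d))) = insert c ((cols T).erase d) := by
  ext a
  simp only [cols, mem_image, mem_insert, mem_erase, ne_eq, Prod.exists, exists_eq_right,
    Prod.mk.injEq]
  constructor
  · rintro ⟨e, (⟨rfl, rfl⟩ | ⟨h1, h2⟩)⟩
    · left; rfl
    · right
      refine ⟨?_, e, h2⟩
      rintro rfl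
      exact h1 (by simpa using h.eq2 h2 hzd rfl)
  · rintro (rfl | ⟨h1, e, h2⟩)
    · exact ⟨r, Or.inl ⟨rfl, rfl⟩⟩
    · exact ⟨e, Or.inr ⟨fun h3 => h1 h3.2, h2⟩⟩

lemma pt_move (h : PT R T) {r z : α} {c d : β} (hzd : (z, d) ∈ T) (hr : r ∉ rows T)
    (hc : c ∉ cols T) (hR : R r c = R z d) : PT R (insert (r, c) (T.erase (z, d))) := by
  have key : ∀ y ∈ T.erase (z, d), r ≠ y.1 ∧ c ≠ y.2 ∧ R r c ≠ R y.1 y.2 := by
    intro y hy
    obtain ⟨hy1, hy2⟩ := mem_erase.1 hy
    refine ⟨?_, ?_, ?_⟩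
    · rintro rfl; exact hr (mem_rows hy2)
    · rintro rfl; exact hc (mem_cols hy2)
    · intro e
      exact hy1 (h.eq3 hy2 hzd (by simpa using (e.symm.trans hR)))
  intro x hx y hy hne
  rcases mem_insert.1 hx with rfl | hx'
  · rcases mem_insert.1 hy with rfl | hy'
    · exact absurd rfl hne
    · exact key y hy'
  · rcases mem_insert.1 hy with rfl | hy'
    · obtain ⟨a, b, c'⟩ := key x hx'
      exact ⟨a.symm, b.symm, c'.symm⟩
    · exact h x (mem_of_mem_erase hx') y (mem_of_mem_erase hy') hne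

lemma card_move {r z : α} {c d : β} (hzd : (z, d) ∈ T) (hr : r ∉ rows T) :
    (insert (r, c) (T.erase (z, d))).card = T.card := by
  rw [card_insert_of_notMem, card_erase_of_mem hzd]
  · have : 0 < T.card := card_pos.2 ⟨_, hzd⟩
    omega
  · intro h
    exact hr (mem_rows (mem_of_mem_erase h))

lemma Mv.st (hT : St R G T) (h : Mv R G T T') : St R G T' := by
  obtain ⟨r, c, z, d, hzd, hr, hc, hG, hR, rfl⟩ := h
  refine ⟨⟨pt_move hT.1.1 hzd hr hc hR, ?_⟩, ?_⟩
  · intro T'' h''
    rw [card_move hzd hr]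
    exact hT.1.2 T'' h''
  · intro e he
    rw [cols_move hT.1.1 hzd]
    intro h'
    rcases mem_insert.1 h' with rfl | h'
    · exact hG he
    · exact hT.2 e he (mem_of_mem_erase h')

lemma Mv.symm (hT : St R G T) (h : Mv R G T T') : Mv R G T' T := by
  obtain ⟨r, c, z, d, hzd, hr, hc, hG, hR, rfl⟩ := h
  have hne1 : z ≠ r := by rintro rfl; exact hr (mem_rows hzd)
  have hne2 : d ≠ c := by rintro rfl; exact hc (mem_cols hzd)
  refine ⟨z, d, r, c, mem_insert_self _ _, ?_, ?_, ?_, hR.symm, ?_⟩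
  · rw [rows_move hT.1.1 hzd]
    simp [hne1]
  · rw [cols_move hT.1.1 hzd]
    simp [hne2]
  · intro hd
    exact hT.2 d hd (mem_cols hzd)
  · have h1 : (r, c) ∉ T.erase (z, d) := fun h' => hr (mem_rows (mem_of_mem_erase h'))
    rw [erase_insert h1, insert_erase hzd]

lemma Reach.refl : Reach R G T T := Relation.ReflTransGen.refl

lemma Reach.trans (h1 : Reach R G T T') (h2 : Reach R G T' T'') : Reach R G T T'' :=
  Relation.ReflTransGen.trans h1 h2

lemma Reach.st (hT : St R G T) (h : Reach R G T T') : St R G T' := by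
  induction h with
  | refl => exact hT
  | tail _ h2 ih => exact h2.st ih

lemma Reach.symm (hT : St R G T) (h : Reach R G T T') : Reach R G T' T := by
  induction h with
  | refl => exact Reach.refl
  | tail h1 h2 ih =>
    exact Relation.ReflTransGen.head (h2.symm (Reach.st hT h1)) ih

lemma Reach.card (hT : St R G T) (h : Reach R G T T') : T'.card = T.card :=
  le_antisymm (hT.1.2 _ (h.st hT).1.1) ((h.st hT).1.2 _ hT.1.1)

open Classical in
/-- rows uncovered in some reachable state -/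
noncomputable def AA (R : α → β → γ) (G : Finset β) (T : Finset (α × β)) : Finset α :=
  univ.filter (fun r => ∃ T', Reach R G T T' ∧ r ∉ rows T')

open Classical in
/-- columns outside `G` uncovered in some reachable state -/
noncomputable def BB (R : α → β → γ) (G : Finset β) (T : Finset (α × β)) : Finset β :=
  univ.filter (fun c => c ∉ G ∧ ∃ T', Reach R G T T' ∧ c ∉ cols T')

open Classical in
/-- symbols of the moves inside the class -/
noncomputable def SS (R : α → β → γ) (G : Finset β) (T : Finset (α × β)) : Finset γ :=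
  univ.filter (fun s => ∃ T' r c, Reach R G T T' ∧ r ∉ rows T' ∧ c ∉ cols T' ∧ c ∉ G ∧
    R r c = s)

lemma mem_AA {r : α} : r ∈ AA R G T ↔ ∃ T', Reach R G T T' ∧ r ∉ rows T' := by
  simp [AA]

lemma mem_BB {c : β} : c ∈ BB R G T ↔ c ∉ G ∧ ∃ T', Reach R G T T' ∧ c ∉ cols T' := by
  simp [BB]

lemma mem_SS {s : γ} : s ∈ SS R G T ↔ ∃ T' r c, Reach R G T T' ∧ r ∉ rows T' ∧ c ∉ cols T' ∧
    c ∉ G ∧ R r c = s := by
  simp [SS]

/-- maximality: the symbol of an uncovered cell occurs in the transversal -/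
lemma MaxPT.exists_symbol (h : MaxPT R T) {r : α} {c : β} (hr : r ∉ rows T) (hc : c ∉ cols T) :
    ∃ x ∈ T, R x.1 x.2 = R r c := by
  by_contra hcon
  push Not at hcon
  have hnot : (r, c) ∉ T := fun h' => hr (mem_rows h')
  have hpt : PT R (insert (r, c) T) := by
    have key : ∀ y ∈ T, r ≠ y.1 ∧ c ≠ y.2 ∧ R r c ≠ R y.1 y.2 := by
      intro y hy
      refine ⟨?_, ?_, ?_⟩
      · rintro rfl; exact hr (mem_rows hy)
      · rintro rfl; exact hc (mem_cols hy)
      · exact (hcon y hy).symm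
    intro x hx y hy hne
    rcases mem_insert.1 hx with rfl | hx'
    · rcases mem_insert.1 hy with rfl | hy'
      · exact absurd rfl hne
      · exact key y hy'
    · rcases mem_insert.1 hy with rfl | hy'
      · obtain ⟨a, b, c'⟩ := key x hx'
        exact ⟨a.symm, b.symm, c'.symm⟩
      · exact h.1 x hx' y hy' hne
  have := h.2 _ hpt
  rw [card_insert_of_notMem hnot] at this
  omega

/-- the symbol set of the transversal is a class invariant -/
lemma Reach.symbols (hT : St R G T) (h : Reach R G T T') {x : α × β} (hx : x ∈ T') :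
    ∃ y ∈ T, R y.1 y.2 = R x.1 x.2 := by
  induction h generalizing x with
  | refl => exact ⟨x, hx, rfl⟩
  | tail h1 h2 ih =>
    obtain ⟨r, c, z, d, hzd, hr, hc, hG, hR, rfl⟩ := h2
    rcases mem_insert.1 hx with rfl | hx'
    · obtain ⟨y, hy, hy2⟩ := ih hzd
      exact ⟨y, hy, hy2.trans hR.symm⟩
    · exact ih (mem_of_mem_erase hx')

/-- a cell of `T` which is missing in a reachable state: its row is in `AA`, its column in `BB`
and its symbol in `SS` -/
lemma Reach.missing (hT : St R G T) (h : Reach R G T T') {x : α × β} (hx : x ∈ T) :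
    x ∈ T' ∨ (x.1 ∈ AA R G T ∧ x.2 ∈ BB R G T ∧ R x.1 x.2 ∈ SS R G T) := by
  induction h with
  | refl => exact Or.inl hx
  | @tail T1 T2 h1 h2 ih =>
    rcases ih with ih | ih
    · have hst := Reach.st hT h1
      have h3 : Reach R G T T2 := Relation.ReflTransGen.tail h1 h2
      obtain ⟨r, c, z, d, hzd, hr, hc, hG, hR, rfl⟩ := h2
      by_cases hxz : x = (z, d)
      · right
        subst hxz
        have hne1 : z ≠ r := by rintro rfl; exact hr (mem_rows hzd)
        have hne2 : d ≠ c := by rintro rfl; exact hc (mem_cols hzd)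
        refine ⟨mem_AA.2 ⟨_, h3, ?_⟩, mem_BB.2 ⟨?_, _, h3, ?_⟩, mem_SS.2 ⟨T1, r, c, h1, hr, hc, hG, hR⟩⟩
        · rw [rows_move hst.1.1 hzd]; simp [hne1]
        · exact fun hd => hst.2 d hd (mem_cols hzd)
        · rw [cols_move hst.1.1 hzd]; simp [hne2]
      · left
        exact mem_insert_of_mem (mem_erase.2 ⟨hxz, ih⟩)
    · exact Or.inr ih

/-- for cells of `T`: symbol in `SS` iff missing in some reachable state -/
lemma exists_missing_of_SS (hT : St R G T) {x : α × β} (hx : x ∈ T)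
    (hs : R x.1 x.2 ∈ SS R G T) : ∃ T', Reach R G T T' ∧ x ∉ T' := by
  obtain ⟨T', r, c, h1, hr, hc, hG, hR⟩ := mem_SS.1 hs
  by_cases hxT : x ∈ T'
  · have hst := h1.st hT
    have hmv : Mv R G T' (insert (r, c) (T'.erase x)) :=
      ⟨r, c, x.1, x.2, hxT, hr, hc, hG, hR, rfl⟩
    refine ⟨_, Relation.ReflTransGen.tail h1 hmv, ?_⟩
    intro hmem
    rcases mem_insert.1 hmem with h' | h'
    · apply hr
      have := mem_rows hxT
      rw [h'] at this
      exact this
    · exact (mem_erase.1 h').1 rfl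
  · exact ⟨T', h1, hxT⟩

lemma cell_row_iff (hT : St R G T) {x : α × β} (hx : x ∈ T) :
    x.1 ∈ AA R G T ↔ R x.1 x.2 ∈ SS R G T := by
  constructor
  · intro h
    obtain ⟨T', h1, h2⟩ := mem_AA.1 h
    rcases h1.missing hT hx with h3 | h3
    · exact absurd (mem_rows h3) h2
    · exact h3.2.2
  · intro h
    obtain ⟨T', h1, h2⟩ := exists_missing_of_SS hT hx h
    rcases h1.missing hT hx with h3 | h3
    · exact absurd h3 h2
    · exact h3.1

lemma cell_col_iff (hT : St R G T) {x : α × β} (hx : x ∈ T) :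
    x.2 ∈ BB R G T ↔ R x.1 x.2 ∈ SS R G T := by
  constructor
  · intro h
    obtain ⟨_, T', h1, h2⟩ := mem_BB.1 h
    rcases h1.missing hT hx with h3 | h3
    · exact absurd (mem_cols h3) h2
    · exact h3.2.2
  · intro h
    obtain ⟨T', h1, h2⟩ := exists_missing_of_SS hT hx h
    rcases h1.missing hT hx with h3 | h3
    · exact absurd h3 h2
    · exact h3.2.1

/-- every symbol in `SS` is the symbol of a cell of `T` -/
lemma SS_symbol (hT : St R G T) {s : γ} (hs : s ∈ SS R G T) : ∃ x ∈ T, R x.1 x.2 = s := by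
  obtain ⟨T', r, c, h1, hr, hc, hG, hR⟩ := mem_SS.1 hs
  obtain ⟨x, hx, hx2⟩ := (h1.st hT).1.exists_symbol hr hc
  obtain ⟨y, hy, hy2⟩ := h1.symbols hT hx
  exact ⟨y, hy, by rw [hy2, hx2, hR]⟩

/-- the moved cells of `T` -/
noncomputable def MC (R : α → β → γ) (G : Finset β) (T : Finset (α × β)) : Finset (α × β) :=
  T.filter (fun x => R x.1 x.2 ∈ SS R G T)

lemma card_MC (hT : St R G T) : (MC R G T).card = (SS R G T).card := by
  have himg : (MC R G T).image (fun x => R x.1 x.2) = SS R G T := by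
    ext s
    simp only [MC, mem_image, mem_filter]
    constructor
    · rintro ⟨x, ⟨_, h2⟩, rfl⟩; exact h2
    · intro hs
      obtain ⟨x, hx, hx2⟩ := SS_symbol hT hs
      exact ⟨x, ⟨hx, by rw [hx2]; exact hs⟩, hx2⟩
  rw [← himg, card_image_of_injOn]
  intro x hx y hy e
  exact hT.1.1.eq3 (mem_filter.1 hx).1 (mem_filter.1 hy).1 e

lemma card_rows (h : PT R T) : (rows T).card = T.card :=
  card_image_of_injOn (fun _ hx _ hy e => h.eq1 hx hy e)

lemma card_cols (h : PT R T) : (cols T).card = T.card :=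
  card_image_of_injOn (fun _ hx _ hy e => h.eq2 hx hy e)

lemma card_AA (hT : St R G T) :
    (AA R G T).card + T.card = (SS R G T).card + Fintype.card α := by
  have hsplit : AA R G T = (univ \ rows T) ∪ (MC R G T).image Prod.fst := by
    ext a
    simp only [mem_union, mem_sdiff, mem_univ, true_and, mem_image, MC, mem_filter]
    constructor
    · intro ha
      by_cases h1 : a ∈ rows T
      · right
        obtain ⟨x, hx, rfl⟩ := mem_image.1 h1
        exact ⟨x, ⟨hx, (cell_row_iff hT hx).1 ha⟩, rfl⟩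
      · exact Or.inl h1
    · rintro (h1 | ⟨x, ⟨hx, h2⟩, rfl⟩)
      · exact mem_AA.2 ⟨T, Reach.refl, h1⟩
      · exact (cell_row_iff hT hx).2 h2
  have hdisj : Disjoint (univ \ rows T) ((MC R G T).image Prod.fst) := by
    rw [disjoint_left]
    intro a ha hb
    obtain ⟨x, hx, rfl⟩ := mem_image.1 hb
    exact (mem_sdiff.1 ha).2 (mem_rows (mem_filter.1 hx).1)
  rw [hsplit, card_union_of_disjoint hdisj, card_image_of_injOn, card_MC hT,
    card_sdiff_of_subset (subset_univ _), card_rows hT.1.1, card_univ]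
  · have : T.card ≤ Fintype.card α := by
      rw [← card_rows hT.1.1]; exact card_le_univ _
    omega
  · intro x hx y hy e
    exact hT.1.1.eq1 (mem_filter.1 hx).1 (mem_filter.1 hy).1 e

lemma card_BB (hT : St R G T) :
    (BB R G T).card + T.card + G.card = (SS R G T).card + Fintype.card β := by
  have hsplit : BB R G T = (univ \ (cols T ∪ G)) ∪ (MC R G T).image Prod.snd := by
    ext a
    simp only [mem_union, mem_sdiff, mem_univ, true_and, mem_image, MC, mem_filter]
    constructor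
    · intro ha
      by_cases h1 : a ∈ cols T
      · right
        obtain ⟨x, hx, rfl⟩ := mem_image.1 h1
        exact ⟨x, ⟨hx, (cell_col_iff hT hx).1 ha⟩, rfl⟩
      · left
        rintro (h2 | h2)
        · exact h1 h2
        · exact (mem_BB.1 ha).1 h2
    · rintro (h1 | ⟨x, ⟨hx, h2⟩, rfl⟩)
      · exact mem_BB.2 ⟨fun h => h1 (Or.inr h), T, Reach.refl, fun h => h1 (Or.inl h)⟩
      · exact (cell_col_iff hT hx).2 h2
  have hdisj : Disjoint (univ \ (cols T ∪ G)) ((MC R G T).image Prod.snd) := by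
    rw [disjoint_left]
    intro a ha hb
    obtain ⟨x, hx, rfl⟩ := mem_image.1 hb
    exact (mem_sdiff.1 ha).2 (mem_union_left _ (mem_cols (mem_filter.1 hx).1))
  have hd2 : Disjoint (cols T) G := by
    rw [disjoint_left]
    intro a ha hb
    exact hT.2 a hb ha
  rw [hsplit, card_union_of_disjoint hdisj, card_image_of_injOn, card_MC hT,
    card_sdiff_of_subset (subset_univ _), card_union_of_disjoint hd2, card_cols hT.1.1, card_univ]
  · have : T.card + G.card ≤ Fintype.card β := by
      rw [← card_cols hT.1.1, ← card_union_of_disjoint hd2]; exact card_le_univ _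
    omega
  · intro x hx y hy e
    exact hT.1.1.eq2 (mem_filter.1 hx).1 (mem_filter.1 hy).1 e

lemma AA_congr (hT : St R G T) (h : Reach R G T T') : AA R G T' = AA R G T := by
  ext a
  rw [mem_AA, mem_AA]
  constructor
  · rintro ⟨U, h1, h2⟩; exact ⟨U, h.trans h1, h2⟩
  · rintro ⟨U, h1, h2⟩; exact ⟨U, (h.symm hT).trans h1, h2⟩

lemma BB_congr (hT : St R G T) (h : Reach R G T T') : BB R G T' = BB R G T := by
  ext a
  rw [mem_BB, mem_BB]
  constructor
  · rintro ⟨h0, U, h1, h2⟩; exact ⟨h0, U, h.trans h1, h2⟩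
  · rintro ⟨h0, U, h1, h2⟩; exact ⟨h0, U, (h.symm hT).trans h1, h2⟩

lemma SS_congr (hT : St R G T) (h : Reach R G T T') : SS R G T' = SS R G T := by
  ext a
  rw [mem_SS, mem_SS]
  constructor
  · rintro ⟨U, r, c, h1, h2⟩; exact ⟨U, r, c, h.trans h1, h2⟩
  · rintro ⟨U, r, c, h1, h2⟩; exact ⟨U, r, c, (h.symm hT).trans h1, h2⟩

/-- with fewer frozen columns there are more moves -/
lemma Reach.mono {G' : Finset β} (hG : G ⊆ G') (h : Reach R G' T T') : Reach R G T T' := by
  induction h with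
  | refl => exact Reach.refl
  | tail _ h2 ih =>
    obtain ⟨r, c, z, d, hzd, hr, hc, hG', hR, rfl⟩ := h2
    exact Relation.ReflTransGen.tail ih ⟨r, c, z, d, hzd, hr, hc, fun h => hG' (hG h), hR, rfl⟩

lemma AA_mono {G' : Finset β} (hG : G ⊆ G') : AA R G' T ⊆ AA R G T := by
  intro a ha
  obtain ⟨U, h1, h2⟩ := mem_AA.1 ha
  exact mem_AA.2 ⟨U, h1.mono hG, h2⟩

lemma BB_mono {G' : Finset β} (hG : G ⊆ G') : BB R G' T ⊆ BB R G T := by
  intro a ha
  obtain ⟨h0, U, h1, h2⟩ := mem_BB.1 ha
  exact mem_BB.2 ⟨fun h => h0 (hG h), U, h1.mono hG, h2⟩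

lemma SS_mono {G' : Finset β} (hG : G ⊆ G') : SS R G' T ⊆ SS R G T := by
  intro a ha
  obtain ⟨U, r, c, h1, h2, h3, h4, h5⟩ := mem_SS.1 ha
  exact mem_SS.2 ⟨U, r, c, h1.mono hG, h2, h3, fun h => h4 (hG h), h5⟩

/-- freezing a column that is uncovered: the rows still movable see symbols of `SS` in it -/
lemma freeze {y : β} (hy : y ∉ G) (hT : St R (insert y G) T) {r : α}
    (hr : r ∈ AA R (insert y G) T) : R r y ∈ SS R G T := by
  obtain ⟨U, h1, h2⟩ := mem_AA.1 hr
  exact mem_SS.2 ⟨U, r, y, h1.mono (subset_insert _ _), h2,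
    (h1.st hT).2 y (mem_insert_self _ _), hy, rfl⟩

lemma freeze_st {y : β} (hT : St R G T) (hy : y ∉ cols T) : St R (insert y G) T := by
  refine ⟨hT.1, ?_⟩
  intro c hc
  rcases mem_insert.1 hc with rfl | hc
  · exact hy
  · exact hT.2 c hc

end basic

end LR
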