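import Mathlib

/-! Definitions for MP_c8dff2_co: latin rectangles and partial transversals. -/

namespace LR

/-- `R` is an `h × k` latin rectangle on `n` symbols: no symbol is repeated in a row or in a
column. -/
def IsLatin {h k n : ℕ} (R : Fin h → Fin k → Fin n) : Prop :=
  (∀ r, Function.Injective (R r)) ∧ (∀ c, Function.Injective (fun r => R r c))

/-- `T` is a partial transversal of `R`: its cells lie in different rows, in different columns
and hold different symbols. -/
def IsPT {h k n : ℕ} (R : Fin h → Fin k → Fin n) (T : Finset (Fin h × Fin k)) : Prop :=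
  ∀ x ∈ T, ∀ y ∈ T, x ≠ y → x.1 ≠ y.1 ∧ x.2 ≠ y.2 ∧ R x.1 x.2 ≠ R y.1 y.2

/-- the maximum length of a partial transversal of `R` -/
noncomputable def pt {h k n : ℕ} (R : Fin h → Fin k → Fin n) : ℕ :=
  sSup {t | ∃ T : Finset (Fin h × Fin k), IsPT R T ∧ T.card = t}

/-- the minimum of `pt R` over all `h × k` latin rectangles `R` on `n` symbols -/
noncomputable def L (h k n : ℕ) : ℕ :=
  sInf {t | ∃ R : Fin h → Fin k → Fin n, IsLatin R ∧ pt R = t}

end LR
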