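import Pool.Agent.Helper35.LR.Seq
import Pool.Agent.Helper35.LR.Defs

/-! From the recursion to a bound on `k - pt R`. -/

set_option linter.unusedSectionVars false

namespace LR

open Finset

/-- the set of lengths of partial transversals is bounded -/
lemma pt_bdd {h k n : ℕ} (R : Fin h → Fin k → Fin n) :
    BddAbove {t | ∃ T : Finset (Fin h × Fin k), IsPT R T ∧ T.card = t} := by
  refine ⟨Fintype.card (Fin h × Fin k), ?_⟩
  rintro t ⟨T, _, rfl⟩
  exact card_le_univ T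

lemma le_pt {h k n : ℕ} {R : Fin h → Fin k → Fin n} {T : Finset (Fin h × Fin k)}
    (hT : IsPT R T) : T.card ≤ pt R :=
  le_csSup (pt_bdd R) ⟨T, hT, rfl⟩

lemma exists_max {h k n : ℕ} (R : Fin h → Fin k → Fin n) :
    ∃ T : Finset (Fin h × Fin k), MaxPT R T ∧ T.card = pt R := by
  have hne : {t | ∃ T : Finset (Fin h × Fin k), IsPT R T ∧ T.card = t}.Nonempty :=
    ⟨0, ∅, by intro x hx; simp at hx, rfl⟩
  obtain ⟨T, hT, hc⟩ := Nat.sSup_mem hne (pt_bdd R)
  refine ⟨T, ⟨hT, ?_⟩, hc⟩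
  intro T' hT'
  rw [hc]
  exact le_pt hT'

/-- what a numeric lemma has to provide -/
def Rec (v : ℕ) (s : ℕ → ℕ) : Prop :=
  (∀ b, b < v → s b ≤ s (b + 1)) ∧ (∀ b, b ≤ v → b ≤ s b) ∧
  ∀ b, 1 ≤ b → b ≤ v → ∃ t : ℕ → ℕ, t 0 = 0 ∧ (∀ g, g ≤ b → s (b - g) + t g ≤ s b) ∧
      ∀ g, g < b → ((s b : ℤ) - t g) * ((b : ℤ) - g) + ((t g : ℤ) + g) * ((s (b - 1) : ℤ) - 2 * t g)
        ≤ ((s b : ℤ) - t g + b - g) * ((t (g + 1) : ℤ) - t g)

/-- the combinatorial part: the recursion holds with `s v ≤ pt R` -/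
theorem rec_of_latin {h k n : ℕ} {R : Fin h → Fin k → Fin n} (hR : IsLatin R) (hlt : pt R < h) :
    ∃ (v : ℕ) (s : ℕ → ℕ), pt R + v = k ∧ s v ≤ pt R ∧ Rec v s := by
  obtain ⟨T0, hT0, hc⟩ := exists_max R
  have hk : T0.card ≤ k := by
    rw [← card_cols hT0.1]
    simpa using card_le_univ (cols T0)
  obtain ⟨v, hv⟩ := Nat.exists_eq_add_of_le hk
  obtain ⟨u, hu⟩ := Nat.exists_eq_add_of_le (show T0.card ≤ h by omega)
  have hv' : T0.card + v = Fintype.card (Fin k) := by simp [hv]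
  have hu' : T0.card + u = Fintype.card (Fin h) := by simp [hu]
  have hlt' : T0.card < Fintype.card (Fin h) := by simp; omega
  refine ⟨v, sm R, by omega, ?_, fun b hb => sm_mono hT0 hv' hb,
    fun b hb => le_sm hR.1 hT0 hv' hlt' hb, ?_⟩
  · rw [← hc]
    have h1 : sm R v ≤ (SS R ∅ T0).card := sm_le (G := ∅) ⟨hT0, by simp⟩ (by simpa using hv')
    exact h1.trans (SS_card_le ⟨hT0, by simp⟩)
  · intro b hb1 hb
    obtain ⟨t, h0, h1, h2⟩ := seq_exists hR.1 hR.2 hT0 hv' hu' hb1 hb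
    refine ⟨t, h0, h1, ?_⟩
    intro g hg
    refine le_trans ?_ (h2 g hg)
    have hg' : (0 : ℤ) ≤ (b : ℤ) - g := by
      have : (g : ℤ) ≤ b := by exact_mod_cast hg.le
      linarith
    have e1 : ((sm R b : ℤ) - t g + u) * ((b : ℤ) - g) +
        ((t g : ℤ) + g) * ((sm R (b - 1) : ℤ) + u - 2 * t g) =
        (((sm R b : ℤ) - t g) * ((b : ℤ) - g) + ((t g : ℤ) + g) * ((sm R (b - 1) : ℤ) - 2 * t g))
        + u * (((b : ℤ) - g) + ((t g : ℤ) + g)) := by ring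
    rw [e1]
    have : (0 : ℤ) ≤ u * (((b : ℤ) - g) + ((t g : ℤ) + g)) := by positivity
    linarith

/-- a nonempty latin rectangle has a partial transversal of length one -/
lemma one_le_pt {h k n : ℕ} (R : Fin h → Fin k → Fin n) (hh : 0 < h) (hk : 0 < k) :
    1 ≤ pt R := by
  have : IsPT R {((⟨0, hh⟩ : Fin h), (⟨0, hk⟩ : Fin k))} := by
    intro x hx y hy hne
    rw [mem_singleton] at hx hy
    exact absurd (hx.trans hy.symm) hne
  simpa using le_pt this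

/-- bound from a numeric lemma with constants `C, c` -/
theorem bound_of_numeric (C c : ℝ) (hC : 0 ≤ C) (hc : 0 ≤ c)
    (hnum : ∀ (v : ℕ) (s : ℕ → ℕ), Rec v s → (v : ℝ) ≤ C * (Real.logb 2 (s v) + c) ^ 2)
    {h k n : ℕ} {R : Fin h → Fin k → Fin n} (hR : IsLatin R) (hlt : pt R < h) :
    (k : ℝ) - pt R ≤ C * (Real.logb 2 (pt R) + c) ^ 2 := by
  obtain ⟨v, s, hv, hs, hrec⟩ := rec_of_latin hR hlt
  have h1 := hnum v s hrec
  have h2 : (k : ℝ) - pt R = v := by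
    have : ((pt R + v : ℕ) : ℝ) = k := by exact_mod_cast hv
    push_cast at this
    linarith
  rw [h2]
  rcases Nat.eq_zero_or_pos v with rfl | hvpos
  · simp only [CharP.cast_eq_zero]; positivity
  have h3 : 1 ≤ s v := le_trans hvpos (hrec.2.1 v le_rfl)
  have h4 : (1 : ℝ) ≤ s v := by exact_mod_cast h3
  have h5 : (s v : ℝ) ≤ pt R := by exact_mod_cast hs
  have h6 : 0 ≤ Real.logb 2 (s v) := Real.logb_nonneg (by norm_num) h4
  have h7 : Real.logb 2 (s v) ≤ Real.logb 2 (pt R) :=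
    Real.logb_le_logb_of_le (by norm_num) (by linarith) h5
  refine h1.trans (mul_le_mul_of_nonneg_left ?_ hC)
  exact pow_le_pow_left₀ (by linarith) (by linarith) 2

end LR
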