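import Pool.Agent.Helper35.LR.Basic

/-! Double counting and the step inequality. -/

set_option linter.unusedSectionVars false

namespace LR

open Finset

section count

variable {α β γ : Type*} [Fintype α] [Fintype β] [Fintype γ]
  [DecidableEq α] [DecidableEq β] [DecidableEq γ]
variable {R : α → β → γ}

/-- the double counting -/
lemma count_step (hrow : ∀ r, Function.Injective (R r))
    (hcol : ∀ c, Function.Injective (fun r => R r c))
    {A0 A : Finset α} {B0 B : Finset β} {S0 S : Finset γ} (hA : A ⊆ A0) (hB : B ⊆ B0)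
    (hS : S ⊆ S0) (t : ℕ) (htA : A0.card = A.card + t) (htS : S0.card = S.card + t) (M : ℤ)
    (hM : ∀ y ∈ B0, M ≤ ((A0.filter (fun r => R r y ∈ S0)).card : ℤ)) :
    (A.card : ℤ) * B.card - A.card * S.card + (B0.card - B.card) * (M - 2 * t) ≤
      ∑ y ∈ B, ((A.filter (fun r => R r y ∉ S)).card : ℤ) := by
  have h1 : ∀ y, ((A.filter (fun r => R r y ∉ S)).card : ℤ) =
      A.card - (A.filter (fun r => R r y ∈ S)).card := by
    intro y
    have := card_filter_add_card_filter_not (s := A) (fun r => R r y ∈ S)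
    push_cast [← this]
    ring
  have h2 : ∑ y ∈ B, ((A.filter (fun r => R r y ∉ S)).card : ℤ) =
      (A.card : ℤ) * B.card - ∑ y ∈ B, ((A.filter (fun r => R r y ∈ S)).card : ℤ) := by
    rw [sum_congr rfl (fun y _ => h1 y), sum_sub_distrib, sum_const, nsmul_eq_mul]
    ring
  have h3 : ∑ y ∈ B0, ((A.filter (fun r => R r y ∈ S)).card : ℤ) ≤ A.card * S.card := by
    have h4 : ∑ y ∈ B0, ((A.filter (fun r => R r y ∈ S)).card : ℤ) =
        ∑ r ∈ A, ((B0.filter (fun y => R r y ∈ S)).card : ℤ) := by
      simp only [card_filter, Nat.cast_sum]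
      rw [sum_comm]
    rw [h4]
    have h5 : ∀ r ∈ A, ((B0.filter (fun y => R r y ∈ S)).card : ℤ) ≤ S.card := by
      intro r _
      have : (B0.filter (fun y => R r y ∈ S)).card ≤ S.card := by
        apply card_le_card_of_injOn (fun y => R r y)
        · intro y hy
          exact (mem_filter.1 hy).2
        · intro y _ y' _ e
          exact hrow r e
      exact_mod_cast this
    calc _ ≤ ∑ r ∈ A, (S.card : ℤ) := sum_le_sum h5
      _ = _ := by rw [sum_const, nsmul_eq_mul]
  have h6 : ∀ y ∈ B0, M - 2 * t ≤ ((A.filter (fun r => R r y ∈ S)).card : ℤ) := by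
    intro y hy
    have hsub : A0.filter (fun r => R r y ∈ S0) ⊆
        (A.filter (fun r => R r y ∈ S)) ∪ ((A0 \ A) ∪ A0.filter (fun r => R r y ∈ S0 \ S)) := by
      intro r hr
      obtain ⟨hr1, hr2⟩ := mem_filter.1 hr
      by_cases h7 : r ∈ A
      · by_cases h8 : R r y ∈ S
        · exact mem_union_left _ (mem_filter.2 ⟨h7, h8⟩)
        · exact mem_union_right _ (mem_union_right _ (mem_filter.2 ⟨hr1, mem_sdiff.2 ⟨hr2, h8⟩⟩))
      · exact mem_union_right _ (mem_union_left _ (mem_sdiff.2 ⟨hr1, h7⟩))
    have h9 : (A0.filter (fun r => R r y ∈ S0 \ S)).card ≤ (S0 \ S).card := by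
      apply card_le_card_of_injOn (fun r => R r y)
      · intro r hr
        exact (mem_filter.1 hr).2
      · intro r _ r' _ e
        exact hcol y e
    have h10 := card_le_card hsub
    have h11 := card_union_le (A.filter (fun r => R r y ∈ S))
      ((A0 \ A) ∪ A0.filter (fun r => R r y ∈ S0 \ S))
    have h12 := card_union_le (A0 \ A) (A0.filter (fun r => R r y ∈ S0 \ S))
    have h13 := card_sdiff_add_card_eq_card hA
    have h14 := card_sdiff_add_card_eq_card hS
    have h15 := hM y hy
    have h16 : ((A0.filter (fun r => R r y ∈ S0)).card : ℤ) ≤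
        ((A.filter (fun r => R r y ∈ S)).card : ℤ) + 2 * t := by
      have : (A0.filter (fun r => R r y ∈ S0)).card ≤
        (A.filter (fun r => R r y ∈ S)).card + 2 * t := by omega
      exact_mod_cast this
    linarith
  have h7 : ∑ y ∈ B0, ((A.filter (fun r => R r y ∈ S)).card : ℤ) =
      ∑ y ∈ B, ((A.filter (fun r => R r y ∈ S)).card : ℤ) +
      ∑ y ∈ B0 \ B, ((A.filter (fun r => R r y ∈ S)).card : ℤ) := by
    rw [add_comm, sum_sdiff hB]
  have h8 : ((B0.card : ℤ) - B.card) * (M - 2 * t) ≤
      ∑ y ∈ B0 \ B, ((A.filter (fun r => R r y ∈ S)).card : ℤ) := by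
    calc ((B0.card : ℤ) - B.card) * (M - 2 * t) = ∑ y ∈ B0 \ B, (M - 2 * (t : ℤ)) := by
          rw [sum_const, nsmul_eq_mul]
          have := card_sdiff_add_card_eq_card hB
          congr 1
          rw [← this]; push_cast; ring
      _ ≤ _ := sum_le_sum (fun y hy => h6 y (mem_sdiff.1 hy).1)
  rw [h2]
  linarith

variable {F G : Finset β} {T T0 T' : Finset (α × β)}

/-- the step inequality -/
lemma step (hrow : ∀ r, Function.Injective (R r))
    (hcol : ∀ c, Function.Injective (fun r => R r c)) (hT0 : St R F T0) (m u : ℕ)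
    (hu : T0.card + u = Fintype.card α)
    (hm : ∀ y T', y ∉ F → Reach R F T0 T' → y ∉ cols T' → m ≤ (SS R (insert y F) T').card)
    (hFG : F ⊆ G) (hreach : Reach R F T0 T) (hG : St R G T) (w : ℕ) (hw : 0 < w)
    (hact : T.card + G.card + w = Fintype.card β) :
    ∃ y T', y ∉ G ∧ Reach R G T T' ∧ y ∉ cols T' ∧
      (((SS R G T).card : ℤ) + u) * w +
        (((SS R F T0).card : ℤ) - (SS R G T).card + (G.card - F.card)) *
          (m + u - 2 * ((SS R F T0).card - (SS R G T).card)) ≤
      (((SS R G T).card : ℤ) + w) * ((SS R G T).card - (SS R (insert y G) T').card) := by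
  have hTF : St R F T := hreach.st hT0
  have hcardT : T.card = T0.card := hreach.card hT0
  -- sizes
  have eA0 := card_AA hT0
  have eB0 := card_BB hT0
  have eA := card_AA hG
  have eB := card_BB hG
  have hA : AA R G T ⊆ AA R F T0 := by rw [← AA_congr hT0 hreach]; exact AA_mono hFG
  have hB : BB R G T ⊆ BB R F T0 := by rw [← BB_congr hT0 hreach]; exact BB_mono hFG
  have hS : SS R G T ⊆ SS R F T0 := by rw [← SS_congr hT0 hreach]; exact SS_mono hFG
  have hS' := card_le_card hS
  have hFG' := card_le_card hFG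
  obtain ⟨t, ht⟩ : ∃ t, (SS R F T0).card = (SS R G T).card + t := ⟨_, (Nat.add_sub_cancel' hS').symm⟩
  have hM : ∀ y ∈ BB R F T0, ((m : ℤ) + u) ≤
      (((AA R F T0).filter (fun r => R r y ∈ SS R F T0)).card : ℤ) := by
    intro y hy
    obtain ⟨hyF, T', h1, h2⟩ := mem_BB.1 hy
    have hst := h1.st hT0
    have hst' := freeze_st hst h2
    have hsub : AA R (insert y F) T' ⊆ (AA R F T0).filter (fun r => R r y ∈ SS R F T0) := by
      intro r hr
      refine mem_filter.2 ⟨?_, ?_⟩
      · rw [← AA_congr hT0 h1]; exact AA_mono (subset_insert _ _) hr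
      · rw [← SS_congr hT0 h1]; exact freeze hyF hst' hr
    have h3 := card_le_card hsub
    have h4 := card_AA hst'
    have h5 := hm y T' hyF h1 h2
    have h6 := h1.card hT0
    have : m + u ≤ ((AA R F T0).filter (fun r => R r y ∈ SS R F T0)).card := by omega
    exact_mod_cast this
  have hcount := count_step hrow hcol hA hB hS t (by omega) ht ((m : ℤ) + u) hM
  -- pigeonhole
  have hBcard : (BB R G T).card = (SS R G T).card + w := by omega
  have hAcard : (AA R G T).card = (SS R G T).card + u := by omega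
  have hBne : 0 < (BB R G T).card := by omega
  have hpig : ∃ y ∈ BB R G T, (∑ y ∈ BB R G T, (((AA R G T).filter (fun r => R r y ∉ SS R G T)).card : ℤ))
      ≤ (BB R G T).card * (((AA R G T).filter (fun r => R r y ∉ SS R G T)).card : ℤ) := by
    by_contra hcon
    push Not at hcon
    have h1 : ∑ y ∈ BB R G T, ((BB R G T).card : ℤ) * (((AA R G T).filter (fun r => R r y ∉ SS R G T)).card : ℤ)
        < ∑ y ∈ BB R G T, (∑ y ∈ BB R G T, (((AA R G T).filter (fun r => R r y ∉ SS R G T)).card : ℤ)) :=
      sum_lt_sum_of_nonempty (card_pos.1 hBne) hcon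
    rw [← mul_sum, sum_const, nsmul_eq_mul] at h1
    exact lt_irrefl _ h1
  obtain ⟨y, hy, hyp⟩ := hpig
  obtain ⟨hyG, T', h1, h2⟩ := mem_BB.1 hy
  refine ⟨y, T', hyG, h1, h2, ?_⟩
  have hst := h1.st hG
  have hst' := freeze_st hst h2
  -- q(y) ≤ |S_G| - |S_{G+y}|
  have hq : ((AA R G T).filter (fun r => R r y ∉ SS R G T)).card + (SS R (insert y G) T').card
      ≤ (SS R G T).card := by
    have hsub : AA R (insert y G) T' ⊆ (AA R G T).filter (fun r => R r y ∈ SS R G T) := by
      intro r hr
      refine mem_filter.2 ⟨?_, ?_⟩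
      · rw [← AA_congr hG h1]; exact AA_mono (subset_insert _ _) hr
      · rw [← SS_congr hG h1]; exact freeze hyG hst' hr
    have h3 := card_le_card hsub
    have h4 := card_AA hst'
    have h6 := h1.card hG
    have h7 := card_filter_add_card_filter_not (s := AA R G T) (fun r => R r y ∈ SS R G T)
    omega
  have hq' : (((AA R G T).filter (fun r => R r y ∉ SS R G T)).card : ℤ) ≤
      (SS R G T).card - (SS R (insert y G) T').card := by
    have : ((((AA R G T).filter (fun r => R r y ∉ SS R G T)).card + (SS R (insert y G) T').card : ℕ) : ℤ)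
      ≤ (SS R G T).card := by exact_mod_cast hq
    push_cast at this
    linarith
  have hmul : ((BB R G T).card : ℤ) * (((AA R G T).filter (fun r => R r y ∉ SS R G T)).card : ℤ) ≤
      ((BB R G T).card : ℤ) * ((SS R G T).card - (SS R (insert y G) T').card) :=
    mul_le_mul_of_nonneg_left hq' (by positivity)
  have hBz : ((BB R G T).card : ℤ) = (SS R G T).card + w := by exact_mod_cast hBcard
  have hAz : ((AA R G T).card : ℤ) = (SS R G T).card + u := by exact_mod_cast hAcard
  have hB0z : ((BB R F T0).card : ℤ) - (BB R G T).card = t + (G.card - F.card) := by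
    have : (BB R F T0).card + F.card = (BB R G T).card + t + G.card := by omega
    have h' : (((BB R F T0).card + F.card : ℕ) : ℤ) = (((BB R G T).card + t + G.card : ℕ) : ℤ) := by
      exact_mod_cast this
    push_cast at h'
    linarith
  have htz : (t : ℤ) = (SS R F T0).card - (SS R G T).card := by
    rw [ht]; push_cast; ring
  rw [hB0z, hBz, hAz] at hcount
  rw [hBz] at hmul hyp
  rw [← htz]
  calc _ = (((SS R G T).card : ℤ) + u) * (((SS R G T).card : ℤ) + w) -
        (((SS R G T).card : ℤ) + u) * (SS R G T).card +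
        ((t : ℤ) + (G.card - F.card)) * ((m : ℤ) + u - 2 * t) := by ring
    _ ≤ _ := hcount
    _ ≤ _ := hyp
    _ ≤ _ := hmul

end count

end LR
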