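import Pool.Agent.Helper35.LR.Bridge

/-! The recursion forces `s b ≥ 2 ^ (√(2b) - 2)`. -/

namespace LR

/-- one step of the recursion, in logistic form -/
lemma logistic {N M t t' β g : ℝ} (hN : 0 < N) (hM0 : 0 ≤ M) (ht : 0 < t) (htM : 2 * t ≤ M)
    (hMN : M ≤ N) (hβ : 0 ≤ β) (hg : 0 ≤ g)
    (hval : 6 * M * t ≤ (2 * M - N) * (M + 2 * N))
    (h : (N - t) * β + (t + g) * (M - 2 * t) ≤ (N - t + β) * (t' - t)) :
    (N + M) * (N - 2 * t') * t ≤ N * t' * (N - 2 * t) := by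
  have hden : 0 < N - t + β := by linarith
  have h1 : t * (N + M - 3 * t) + β * N ≤ (N - t + β) * t' := by
    have : 0 ≤ g * (M - 2 * t) := mul_nonneg hg (by linarith)
    nlinarith
  have hpos : 0 < N ^ 2 + 2 * M * t := by positivity
  have h2 : (N + M) * t * N * (N - t + β) ≤
      (t * (N + M - 3 * t) + β * N) * (N ^ 2 + 2 * M * t) := by
    have e : (t * (N + M - 3 * t) + β * N) * (N ^ 2 + 2 * M * t) - (N + M) * t * N * (N - t + β)
        = t ^ 2 * ((2 * M - N) * (M + 2 * N) - 6 * M * t) + β * N * (N * (N - t) + M * t) := by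
      ring
    have h3 : 0 ≤ t ^ 2 * ((2 * M - N) * (M + 2 * N) - 6 * M * t) :=
      mul_nonneg (by positivity) (by linarith)
    have h4 : 0 ≤ β * N * (N * (N - t) + M * t) := by
      have : 0 ≤ N - t := by linarith
      positivity
    linarith
  have h3 : (N + M) * t * N * (N - t + β) ≤ ((N - t + β) * t') * (N ^ 2 + 2 * M * t) :=
    h2.trans (mul_le_mul_of_nonneg_right h1 hpos.le)
  have h4 : (N + M) * t * N ≤ t' * (N ^ 2 + 2 * M * t) := by
    have : (N - t + β) * ((N + M) * t * N) ≤ (N - t + β) * (t' * (N ^ 2 + 2 * M * t)) := by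
      linarith
    exact le_of_mul_le_mul_left this hden
  nlinarith

lemma two_rpow_ge (x : ℝ) : 1 + x * Real.log 2 ≤ (2 : ℝ) ^ x := by
  rw [Real.rpow_def_of_pos (by norm_num)]
  have := Real.add_one_le_exp (Real.log 2 * x)
  linarith

/-- small values -/
lemma small_case {b : ℕ} (hb : 1 ≤ b) (hb2 : b ≤ 19) : (2 : ℝ) ^ (√(2 * (b : ℝ)) - 2) ≤ b := by
  have aux : ∀ (q r : ℝ), 0 ≤ q → 2 * (b : ℝ) ≤ q ^ 2 → (2 : ℝ) ^ (q - 2) ≤ r → r ≤ b →
      (2 : ℝ) ^ (√(2 * (b : ℝ)) - 2) ≤ b := by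
    intro q r hq h1 h2 h3
    have h4 : √(2 * (b : ℝ)) ≤ q := Real.sqrt_le_iff.2 ⟨hq, h1⟩
    calc (2 : ℝ) ^ (√(2 * (b : ℝ)) - 2) ≤ (2 : ℝ) ^ (q - 2) :=
          Real.rpow_le_rpow_of_exponent_le (by norm_num) (by linarith)
      _ ≤ r := h2
      _ ≤ b := h3
  have hbr : (1 : ℝ) ≤ b := by exact_mod_cast hb
  rcases le_or_gt b 2 with h | h
  · have : (b : ℝ) ≤ 2 := by exact_mod_cast h
    exact aux 2 1 (by norm_num) (by linarith) (by norm_num) hbr
  rcases le_or_gt b 4 with h' | h'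
  · have h1 : (b : ℝ) ≤ 4 := by exact_mod_cast h'
    have h2 : (3 : ℝ) ≤ b := by exact_mod_cast h
    exact aux 3 2 (by norm_num) (by linarith) (by norm_num) (by linarith)
  rcases le_or_gt b 8 with h'' | h''
  · have h1 : (b : ℝ) ≤ 8 := by exact_mod_cast h''
    have h2 : (5 : ℝ) ≤ b := by exact_mod_cast h'
    exact aux 4 4 (by norm_num) (by linarith) (by norm_num) (by linarith)
  rcases le_or_gt b 12 with h3 | h3
  · have h1 : (b : ℝ) ≤ 12 := by exact_mod_cast h3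
    have h2 : (9 : ℝ) ≤ b := by exact_mod_cast h''
    exact aux 5 8 (by norm_num) (by linarith) (by norm_num) (by linarith)
  rcases le_or_gt b 15 with h4 | h4
  · have h1 : (b : ℝ) ≤ 15 := by exact_mod_cast h4
    have h2 : (13 : ℝ) ≤ b := by exact_mod_cast h3
    refine aux (11 / 2) 12 (by norm_num) (by linarith) ?_ (by linarith)
    have e : (2 : ℝ) ^ ((11 : ℝ) / 2 - 2) = (2 ^ (7 : ℝ)) ^ ((1 : ℝ) / 2) := by
      rw [← Real.rpow_mul (by norm_num)]; norm_num
    rw [e, ← Real.sqrt_eq_rpow]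
    apply Real.sqrt_le_iff.2
    constructor <;> norm_num
  rcases le_or_gt b 18 with h5 | h5
  · have h1 : (b : ℝ) ≤ 18 := by exact_mod_cast h5
    have h2 : (16 : ℝ) ≤ b := by exact_mod_cast h4
    exact aux 6 16 (by norm_num) (by linarith) (by norm_num) (by linarith)
  · have hb19 : b = 19 := by omega
    subst hb19
    refine aux (31 / 5) 19 (by norm_num) (by norm_num) ?_ (by norm_num)
    have e : ((2 : ℝ) ^ ((31 : ℝ) / 5 - 2)) ^ (5 : ℕ) = 2 ^ (21 : ℕ) := by
      rw [← Real.rpow_natCast, ← Real.rpow_mul (by norm_num), ← Real.rpow_natCast]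
      norm_num
    by_contra hcon
    push Not at hcon
    have : ((19 : ℕ) : ℝ) = 19 := by norm_num
    have h6 : (19 : ℝ) ^ (5 : ℕ) < ((2 : ℝ) ^ ((31 : ℝ) / 5 - 2)) ^ (5 : ℕ) :=
      pow_lt_pow_left₀ hcon (by norm_num) (by norm_num)
    rw [e] at h6
    norm_num at h6


/-- the lower bound for a later class, relative form: for `g ≤ K - 5/2` -/
lemma sqrt_lower {K g : ℝ} (hK : 6 ≤ K) (hg : g ≤ K - 5 / 2) :
    K - 1 + 4 / (2 * K - 1) ≤ √(K ^ 2 - 2 * g) := by
  apply Real.le_sqrt_of_sq_le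
  have h1 : 0 < 2 * K - 1 := by linarith
  have h2 : (K - 1 + 4 / (2 * K - 1)) ^ 2 ≤ K ^ 2 - 2 * K + 5 := by
    have e : K - 1 + 4 / (2 * K - 1) = ((K - 1) * (2 * K - 1) + 4) / (2 * K - 1) := by
      rw [eq_div_iff h1.ne', add_mul, div_mul_cancel₀ _ h1.ne']
    rw [e, div_pow, div_le_iff₀ (by positivity)]
    nlinarith
  linarith

/-- the last class but one -/
lemma sqrt_lower' {K : ℝ} (hK : 6 ≤ K) :
    K - 1 / (K - 1 / 10) ≤ √(K ^ 2 - 2) := by
  apply Real.le_sqrt_of_sq_le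
  have h1 : 0 < K - 1 / 10 := by linarith
  have e : K - 1 / (K - 1 / 10) = (K * (K - 1 / 10) - 1) / (K - 1 / 10) := by
    rw [eq_div_iff h1.ne', sub_mul, div_mul_cancel₀ _ h1.ne']
  rw [e, div_pow, div_le_iff₀ (by positivity)]
  nlinarith

/-- the iteration -/
lemma iterate {N M : ℝ} {b : ℕ} {t : ℕ → ℝ} (hN : 0 < N) (hM0 : 0 < M) (hMN : M ≤ N)
    (hb : 1 ≤ b) {n : ℕ} (h1 : N * b ≤ (N + b) * t 1) (hnb : n < b)
    (hval : ∀ g, 1 ≤ g → g ≤ n → 6 * M * t g ≤ (2 * M - N) * (M + 2 * N) ∧ 2 * t g ≤ M)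
    (hrec : ∀ g : ℕ, g < b → (N - t g) * ((b : ℝ) - g) + (t g + g) * (M - 2 * t g) ≤
      (N - t g + b - g) * (t (g + 1) - t g)) :
    ∀ g, g ≤ n → 0 < t (g + 1) ∧
      b * (1 + M / N) ^ g * (N - 2 * t (g + 1)) ≤ N * t (g + 1) := by
  have hbr : (0 : ℝ) < b := by exact_mod_cast hb
  intro g
  induction g with
  | zero =>
    intro _
    have hpos : 0 < t 1 := by
      have : 0 < (N + b) * t 1 := lt_of_lt_of_le (by positivity) h1
      exact (mul_pos_iff_of_pos_left (by positivity : 0 < N + (b : ℝ))).1 this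
    refine ⟨hpos, ?_⟩
    simp only [pow_zero, mul_one, zero_add]
    nlinarith
  | succ g ih =>
    intro hg
    obtain ⟨hpos, hI⟩ := ih (by omega)
    obtain ⟨hv1, hv2⟩ := hval (g + 1) (by omega) hg
    have hgb : (((g + 1 : ℕ) : ℝ)) ≤ b := by exact_mod_cast (by omega : g + 1 ≤ b)
    have hr := hrec (g + 1) (by omega)
    have hstep := logistic (N := N) (M := M) (t := t (g + 1)) (t' := t (g + 1 + 1))
      (β := (b : ℝ) - ((g + 1 : ℕ) : ℝ)) (g := ((g + 1 : ℕ) : ℝ)) hN hM0.le hpos hv2 hMN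
      (by linarith) (by positivity) hv1 (by linarith)
    have hpos' : 0 < t (g + 1 + 1) := by
      -- t' > 0 since t' ≥ t
      have hden : 0 < N - t (g + 1) + ((b : ℝ) - ((g + 1 : ℕ) : ℝ)) := by
        have : t (g + 1) < N := by linarith
        linarith
      have hnn : 0 ≤ (N - t (g + 1)) * ((b : ℝ) - ((g + 1 : ℕ) : ℝ)) +
          (t (g + 1) + ((g + 1 : ℕ) : ℝ)) * (M - 2 * t (g + 1)) := by
        have h5 : 0 ≤ N - t (g + 1) := by linarith
        have h6 : 0 ≤ (b : ℝ) - ((g + 1 : ℕ) : ℝ) := by linarith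
        have h7 : 0 ≤ M - 2 * t (g + 1) := by linarith
        have h8 : (0 : ℝ) ≤ ((g + 1 : ℕ) : ℝ) := by positivity
        have h9 := mul_nonneg h5 h6
        have h10 := mul_nonneg (by linarith : 0 ≤ t (g + 1) + ((g + 1 : ℕ) : ℝ)) h7
        linarith
      have h11 : 0 ≤ (N - t (g + 1) + ((b : ℝ) - ((g + 1 : ℕ) : ℝ))) *
          (t (g + 1 + 1) - t (g + 1)) := by
        have : (N - t (g + 1) + (b : ℝ) - ((g + 1 : ℕ) : ℝ)) * (t (g + 1 + 1) - t (g + 1)) =
          (N - t (g + 1) + ((b : ℝ) - ((g + 1 : ℕ) : ℝ))) * (t (g + 1 + 1) - t (g + 1)) := by ring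
        rw [← this]
        linarith
      have h12 : 0 ≤ t (g + 1 + 1) - t (g + 1) := nonneg_of_mul_nonneg_right h11 hden
      linarith
    refine ⟨hpos', ?_⟩
    set P : ℝ := (1 + M / N) ^ g with hP
    have hPpos : 0 < P := by positivity
    have e1 : (1 + M / N) * N = N + M := by field_simp
    have h5 : b * P * ((N + M) * (N - 2 * t (g + 1 + 1)) * t (g + 1)) ≤
        b * P * (N * t (g + 1 + 1) * (N - 2 * t (g + 1))) :=
      mul_le_mul_of_nonneg_left hstep (by positivity)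
    have h6 : b * P * (N * t (g + 1 + 1) * (N - 2 * t (g + 1))) ≤
        N * t (g + 1 + 1) * (N * t (g + 1)) := by
      have := mul_le_mul_of_nonneg_left hI (by positivity : 0 ≤ N * t (g + 1 + 1))
      linarith
    have h7 : (N * t (g + 1)) * (b * (1 + M / N) ^ (g + 1) * (N - 2 * t (g + 1 + 1))) ≤
        (N * t (g + 1)) * (N * t (g + 1 + 1)) := by
      have e2 : (N * t (g + 1)) * (b * (1 + M / N) ^ (g + 1) * (N - 2 * t (g + 1 + 1))) =
          b * P * (((1 + M / N) * N) * (N - 2 * t (g + 1 + 1)) * t (g + 1)) := by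
        rw [hP]; ring
      rw [e2, e1]
      linarith
    exact le_of_mul_le_mul_left h7 (by positivity)


lemma log_two_ge : (693 / 1000 : ℝ) ≤ Real.log 2 := by
  have := Real.log_two_gt_d9
  linarith

lemma log_two_le : Real.log 2 ≤ (7 / 10 : ℝ) := by
  have := Real.log_two_lt_d9
  linarith

set_option maxHeartbeats 2000000 in
/-- the recursion forces exponential growth in `√b` -/
theorem half_lower {v : ℕ} {s : ℕ → ℕ} (h : Rec v s) :
    ∀ b, 1 ≤ b → b ≤ v → (2 : ℝ) ^ (√(2 * (b : ℝ)) - 2) ≤ s b := by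
  obtain ⟨hmono, hge, hseq⟩ := h
  intro b
  induction b using Nat.strong_induction_on with
  | _ b ih =>
  intro hb1 hbv
  by_contra hcon
  push Not at hcon
  have hbs : (b : ℝ) ≤ s b := by exact_mod_cast hge b hbv
  rcases le_or_gt b 19 with h19 | h19
  · linarith [small_case hb1 h19]
  obtain ⟨t, ht0, hts, htr⟩ := hseq b hb1 hbv
  set K : ℝ := √(2 * (b : ℝ)) with hK
  have hb20 : (20 : ℝ) ≤ b := by exact_mod_cast h19
  have hK2 : K ^ 2 = 2 * b := Real.sq_sqrt (by positivity)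
  have hK0 : 0 ≤ K := Real.sqrt_nonneg _
  have hK6 : (632 / 100 : ℝ) ≤ K := by
    apply Real.le_sqrt_of_sq_le
    linarith
  set N : ℝ := (s b : ℝ) with hN
  set M : ℝ := (s (b - 1) : ℝ) with hM
  have hNpos : 0 < N := by linarith
  have hcast : ∀ g : ℕ, g ≤ b → ((b - g : ℕ) : ℝ) = (b : ℝ) - g := fun g hg => by
    rw [Nat.cast_sub hg]
  have h10 : 0 < 10 * K - 1 := by linarith
  have h21 : 0 < 2 * K - 1 := by linarith
  set δ : ℝ := 7 / (10 * K - 1) with hδ
  set ε : ℝ := (2772 / 1000) / (2 * K - 1) with hε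
  have hδK : δ * (10 * K - 1) = 7 := by rw [hδ]; field_simp
  have hεK : ε * (2 * K - 1) = 2772 / 1000 := by rw [hε]; field_simp
  have hδpos : 0 < δ := by positivity
  have hεpos : 0 < ε := by positivity
  -- the class before
  have hMlow : N * (1 - δ) ≤ M := by
    have h1 := ih (b - 1) (by omega) (by omega) (by omega)
    have e1 : 2 * ((b - 1 : ℕ) : ℝ) = K ^ 2 - 2 := by
      rw [hcast 1 hb1, hK2]; push_cast; ring
    rw [e1] at h1
    have h2 := sqrt_lower' (K := K) (by linarith)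
    have h3 : (2 : ℝ) ^ (K - 2 + -(1 / (K - 1 / 10))) ≤ (2 : ℝ) ^ (√(K ^ 2 - 2) - 2) :=
      Real.rpow_le_rpow_of_exponent_le (by norm_num) (by linarith)
    rw [Real.rpow_add (by norm_num)] at h3
    have h4 : 1 - δ ≤ (2 : ℝ) ^ (-(1 / (K - 1 / 10))) := by
      refine le_trans ?_ (two_rpow_ge _)
      have h5 : 1 / (K - 1 / 10) * Real.log 2 ≤ 1 / (K - 1 / 10) * (7 / 10) := by
        apply mul_le_mul_of_nonneg_left log_two_le
        have : 0 < K - 1 / 10 := by linarith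
        positivity
      have h6 : 1 / (K - 1 / 10) * (7 / 10) = δ := by
        have : K - 1 / 10 ≠ 0 := by
          have : 0 < K - 1 / 10 := by linarith
          exact this.ne'
        rw [hδ, div_mul_div_comm, one_mul]
        congr 1
        ring
      linarith
    have h7 : N * (1 - δ) ≤ (2 : ℝ) ^ (K - 2) * (2 : ℝ) ^ (-(1 / (K - 1 / 10))) := by
      have hδ1 : 0 ≤ 1 - δ := by
        have : δ ≤ 1 := by
          rw [hδ, div_le_one h10]; linarith
        linarith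
      exact mul_le_mul hcon.le h4 hδ1 (by positivity)
    linarith
  have hMN : M ≤ N := by
    have h1 := hmono (b - 1) (by omega)
    rw [show b - 1 + 1 = b by omega] at h1
    rw [hM, hN]
    exact_mod_cast h1
  have hδsmall : δ ≤ 1 / 8 := by
    rw [hδ, div_le_iff₀ h10]; linarith
  have hMpos : 0 < M := by
    have : 0 < N * (1 - δ) := mul_pos hNpos (by linarith)
    linarith
  -- the number of steps
  set n0 : ℕ := ⌊K - 5 / 2⌋₊ with hn0
  have hn0le : (n0 : ℝ) ≤ K - 5 / 2 := Nat.floor_le (by linarith)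
  have hn0gt : K - 5 / 2 < (n0 : ℝ) + 1 := Nat.lt_floor_add_one _
  have hn01 : 1 ≤ n0 := by
    apply Nat.le_floor
    push_cast
    linarith
  have hn0b : n0 < b := by
    have : (n0 : ℝ) < b := by nlinarith
    exact_mod_cast this
  -- later classes
  have hlow : ∀ g, 1 ≤ g → g ≤ n0 → 2 * (t g : ℝ) ≤ N * (1 - ε) := by
    intro g hg1 hg
    have hgb : g ≤ b := by omega
    have hgr : (g : ℝ) ≤ n0 := by exact_mod_cast hg
    have h1 := ih (b - g) (by omega) (by omega) (by omega)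
    have e1 : 2 * ((b - g : ℕ) : ℝ) = K ^ 2 - 2 * g := by
      rw [hcast g hgb, hK2]; ring
    rw [e1] at h1
    have h2 := sqrt_lower (K := K) (g := g) (by linarith) (by linarith)
    have h3 : (2 : ℝ) ^ (K - 2 + (-1 + 4 / (2 * K - 1))) ≤ (2 : ℝ) ^ (√(K ^ 2 - 2 * g) - 2) :=
      Real.rpow_le_rpow_of_exponent_le (by norm_num) (by linarith)
    rw [Real.rpow_add (by norm_num), Real.rpow_add (by norm_num)] at h3
    have h4 : 1 + ε ≤ (2 : ℝ) ^ (4 / (2 * K - 1)) := by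
      refine le_trans ?_ (two_rpow_ge _)
      have h5 : 4 / (2 * K - 1) * (693 / 1000) ≤ 4 / (2 * K - 1) * Real.log 2 :=
        mul_le_mul_of_nonneg_left log_two_ge (by positivity)
      have h6 : 4 / (2 * K - 1) * (693 / 1000) = ε := by
        rw [hε]; ring
      linarith
    have h7 : N * ((1 / 2) * (1 + ε)) ≤ (2 : ℝ) ^ (K - 2) * ((2 : ℝ) ^ (-1 : ℝ) *
        (2 : ℝ) ^ (4 / (2 * K - 1))) := by
      have e2 : (2 : ℝ) ^ (-1 : ℝ) = 1 / 2 := by
        rw [Real.rpow_neg_one]; norm_num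
      rw [e2]
      apply mul_le_mul hcon.le _ (by positivity) (by positivity)
      exact mul_le_mul_of_nonneg_left h4 (by norm_num)
    have h8 : ((s (b - g) : ℕ) : ℝ) + t g ≤ N := by
      rw [hN]
      exact_mod_cast hts g hgb
    linarith
  have hεδ : δ ≤ ε := by
    rw [hδ, hε, div_le_div_iff₀ h10 h21]; linarith
  have h4δ : 4 * δ ≤ 3 * ε * (1 - δ) := by
    have h1 : 0 < (10 * K - 1) * (2 * K - 1) := by positivity
    have h2 : 4 * δ * ((10 * K - 1) * (2 * K - 1)) ≤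
        3 * ε * (1 - δ) * ((10 * K - 1) * (2 * K - 1)) := by
      have e1 : 4 * δ * ((10 * K - 1) * (2 * K - 1)) = 4 * (δ * (10 * K - 1)) * (2 * K - 1) := by
        ring
      have e2 : 3 * ε * (1 - δ) * ((10 * K - 1) * (2 * K - 1)) =
          3 * (ε * (2 * K - 1)) * ((10 * K - 1) - δ * (10 * K - 1)) := by ring
      rw [e1, e2, hδK, hεK]
      linarith
    exact le_of_mul_le_mul_right h2 h1
  have hvalid : ∀ g, 1 ≤ g → g ≤ n0 →
      6 * M * (t g : ℝ) ≤ (2 * M - N) * (M + 2 * N) ∧ 2 * (t g : ℝ) ≤ M := by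
    intro g hg1 hg
    have h1 := hlow g hg1 hg
    constructor
    · have h2 : 6 * M * (t g : ℝ) ≤ 3 * M * (N * (1 - ε)) := by
        have := mul_le_mul_of_nonneg_left h1 (by positivity : 0 ≤ 3 * M)
        linarith
      have h3 : 2 * N ^ 2 ≤ 2 * M ^ 2 + 3 * ε * M * N := by
        have h4 : (N * (1 - δ)) ^ 2 ≤ M ^ 2 :=
          pow_le_pow_left₀ (mul_nonneg hNpos.le (by linarith)) hMlow 2
        have h5 : 3 * ε * (N * (1 - δ)) * N ≤ 3 * ε * M * N := by
          apply mul_le_mul_of_nonneg_right _ hNpos.le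
          exact mul_le_mul_of_nonneg_left hMlow (by positivity)
        have h6 : 2 * N ^ 2 ≤ 2 * (N * (1 - δ)) ^ 2 + 3 * ε * (N * (1 - δ)) * N := by
          have e : 2 * (N * (1 - δ)) ^ 2 + 3 * ε * (N * (1 - δ)) * N - 2 * N ^ 2 =
            N ^ 2 * ((3 * ε * (1 - δ) - 4 * δ) + 2 * δ ^ 2) := by ring
          have : 0 ≤ N ^ 2 * ((3 * ε * (1 - δ) - 4 * δ) + 2 * δ ^ 2) :=
            mul_nonneg (by positivity) (by nlinarith)
          linarith
        linarith
      nlinarith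
    · have h2 : N * (1 - ε) ≤ N * (1 - δ) := mul_le_mul_of_nonneg_left (by linarith) hNpos.le
      linarith
  -- the recursion over the reals
  have hrecR : ∀ g : ℕ, g < b → (N - (t g : ℝ)) * ((b : ℝ) - g) + ((t g : ℝ) + g) *
      (M - 2 * (t g : ℝ)) ≤ (N - (t g : ℝ) + b - g) * ((t (g + 1) : ℝ) - (t g : ℝ)) := by
    intro g hg
    have h1 := htr g hg
    have h2 : ((((s b : ℤ) - t g) * ((b : ℤ) - g) + ((t g : ℤ) + g) *
      ((s (b - 1) : ℤ) - 2 * t g) : ℤ) : ℝ) ≤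
      ((((s b : ℤ) - t g + b - g) * ((t (g + 1) : ℤ) - t g) : ℤ) : ℝ) := by exact_mod_cast h1
    push_cast at h2
    exact h2
  have hstart : N * b ≤ (N + b) * (t 1 : ℝ) := by
    have h1 := hrecR 0 (by omega)
    simp only [ht0, Nat.cast_zero, sub_zero, zero_add, zero_mul, add_zero] at h1
    exact h1
  obtain ⟨hpos, hfin⟩ := iterate (N := N) (M := M) (b := b) (t := fun g => (t g : ℝ)) hNpos hMpos
    hMN hb1 (n := n0 - 1) hstart (by omega) (fun g hg1 hg => hvalid g hg1 (by omega)) hrecR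
    (n0 - 1) le_rfl
  rw [show n0 - 1 + 1 = n0 by omega] at hpos hfin
  have hlast := hlow n0 hn01 le_rfl
  -- powers
  set ρ : ℝ := M / N with hρ
  have hρ1 : 1 - δ ≤ ρ := by
    rw [hρ, le_div_iff₀ hNpos]; linarith
  have hn0cast : ((n0 - 1 : ℕ) : ℝ) = (n0 : ℝ) - 1 := by
    rw [Nat.cast_sub hn01, Nat.cast_one]
  have hpw : (2 : ℝ) ^ (n0 - 1) * (65 / 100) ≤ (1 + ρ) ^ (n0 - 1) := by
    have e1 : (1 + ρ) ^ (n0 - 1) = 2 ^ (n0 - 1) * (1 + (ρ - 1) / 2) ^ (n0 - 1) := by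
      rw [← mul_pow]; congr 1; ring
    rw [e1]
    apply mul_le_mul_of_nonneg_left _ (by positivity)
    have h1 := one_add_mul_le_pow (a := (ρ - 1) / 2) (by
      have : 0 ≤ ρ := by positivity
      linarith) (n0 - 1)
    refine le_trans ?_ h1
    rw [hn0cast]
    have h2 : ((n0 : ℝ) - 1) * δ ≤ 7 / 10 := by
      have h3 : ((n0 : ℝ) - 1) * δ ≤ (K - 7 / 2) * δ :=
        mul_le_mul_of_nonneg_right (by linarith) hδpos.le
      have h4 : (K - 7 / 2) * δ ≤ 7 / 10 := by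
        have : K * δ = 7 / 10 + δ / 10 := by linarith
        linarith
      linarith
    have h5 : 0 ≤ (n0 : ℝ) - 1 := by
      have : (1 : ℝ) ≤ n0 := by exact_mod_cast hn01
      linarith
    have h6 : ((n0 : ℝ) - 1) * (1 - ρ) ≤ ((n0 : ℝ) - 1) * δ :=
      mul_le_mul_of_nonneg_left (by linarith) h5
    linarith
  have hNup : N ≤ (2 : ℝ) ^ (n0 - 1) * (566 / 100) := by
    have h1 : (2 : ℝ) ^ (K - 2) ≤ (2 : ℝ) ^ (((n0 - 1 : ℕ) : ℝ) + 5 / 2) := by
      apply Real.rpow_le_rpow_of_exponent_le (by norm_num)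
      rw [hn0cast]; linarith
    rw [Real.rpow_add (by norm_num), Real.rpow_natCast] at h1
    have h2 : (2 : ℝ) ^ ((5 : ℝ) / 2) ≤ 566 / 100 := by
      have e : (2 : ℝ) ^ ((5 : ℝ) / 2) = √32 := by
        rw [Real.sqrt_eq_rpow, show (32 : ℝ) = 2 ^ (5 : ℝ) by norm_num, ← Real.rpow_mul (by norm_num)]
        norm_num
      rw [e]
      apply Real.sqrt_le_iff.2
      constructor <;> norm_num
    have h3 : (2 : ℝ) ^ (n0 - 1) * (2 : ℝ) ^ ((5 : ℝ) / 2) ≤ (2 : ℝ) ^ (n0 - 1) * (566 / 100) :=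
      mul_le_mul_of_nonneg_left h2 (by positivity)
    linarith
  -- contradiction
  have hQ : (0 : ℝ) < 2 ^ (n0 - 1) := by positivity
  set Q : ℝ := 2 ^ (n0 - 1) with hQdef
  have h1 : b * (Q * (65 / 100)) * (N * ε) ≤ N * (t n0 : ℝ) := by
    refine le_trans ?_ hfin
    apply mul_le_mul _ (by linarith) (by positivity) (by positivity)
    exact mul_le_mul_of_nonneg_left hpw (by positivity)
  have h2 : 2 * (t n0 : ℝ) ≤ N := by
    have : N * (1 - ε) ≤ N := by
      have := mul_pos hNpos hεpos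
      linarith
    linarith
  have h3 : N * (2 * b * (Q * (65 / 100)) * ε) ≤ N * N := by
    have := mul_le_mul_of_nonneg_left h2 hNpos.le
    linarith
  have h4 : 2 * b * (Q * (65 / 100)) * ε ≤ N := le_of_mul_le_mul_left h3 hNpos
  have h5 : Q * (K ^ 2 * (65 / 100) * ε) ≤ Q * (566 / 100) := by
    rw [hK2]
    linarith
  have h6 : K ^ 2 * (65 / 100) * ε ≤ 566 / 100 := le_of_mul_le_mul_left h5 hQ
  have h7 : K ^ 2 * (65 / 100) * (2772 / 1000) ≤ 566 / 100 * (2 * K - 1) := by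
    have h8 := mul_le_mul_of_nonneg_right h6 h21.le
    have e : K ^ 2 * (65 / 100) * ε * (2 * K - 1) = K ^ 2 * (65 / 100) * (2772 / 1000) := by
      rw [← hεK]; ring
    linarith
  nlinarith

/-- the numeric bound with constant `1/2` -/
theorem numeric_half (v : ℕ) (s : ℕ → ℕ) (h : Rec v s) :
    (v : ℝ) ≤ 1 / 2 * (Real.logb 2 (s v) + 2) ^ 2 := by
  rcases Nat.eq_zero_or_pos v with rfl | hv
  · simp only [CharP.cast_eq_zero]; positivity
  have h1 := half_lower h v hv le_rfl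
  have hs : (0 : ℝ) < s v := lt_of_lt_of_le (by positivity) h1
  have h2 : √(2 * (v : ℝ)) - 2 ≤ Real.logb 2 (s v) := by
    rw [Real.le_logb_iff_rpow_le (by norm_num) hs]
    exact h1
  have h3 : √(2 * (v : ℝ)) ≤ Real.logb 2 (s v) + 2 := by linarith
  have h4 := pow_le_pow_left₀ (Real.sqrt_nonneg _) h3 2
  rw [Real.sq_sqrt (by positivity)] at h4
  linarith

end LR
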