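import Pool.Agent.Helper35.LR.Count

/-! The minimal class sizes `sm R b` and their recursion. -/

set_option linter.unusedSectionVars false

namespace LR

open Finset

section seq

variable {α β γ : Type*} [Fintype α] [Fintype β] [Fintype γ]
  [DecidableEq α] [DecidableEq β] [DecidableEq γ]
variable {R : α → β → γ}

/-- sizes of the symbol sets of classes with `b` active columns -/
def sset (R : α → β → γ) (b : ℕ) : Set ℕ :=
  {m | ∃ G T, St R G T ∧ T.card + G.card + b = Fintype.card β ∧ (SS R G T).card = m}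

/-- the minimum -/
noncomputable def sm (R : α → β → γ) (b : ℕ) : ℕ := sInf (sset R b)

lemma sm_le {G : Finset β} {T : Finset (α × β)} (hT : St R G T) {b : ℕ}
    (hb : T.card + G.card + b = Fintype.card β) : sm R b ≤ (SS R G T).card :=
  Nat.sInf_le ⟨G, T, hT, hb, rfl⟩

lemma exists_uncovered {G : Finset β} {T : Finset (α × β)} (hT : St R G T)
    (hb : T.card + G.card < Fintype.card β) : ∃ y, y ∉ cols T ∧ y ∉ G := by
  by_contra hcon
  push Not at hcon
  have : (univ : Finset β) ⊆ cols T ∪ G := by
    intro y _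
    by_cases h : y ∈ cols T
    · exact mem_union_left _ h
    · exact mem_union_right _ (hcon y h)
  have h1 := card_le_card this
  have h2 := card_union_le (cols T) G
  rw [card_cols hT.1.1, card_univ] at *
  omega

lemma sset_nonempty {T0 : Finset (α × β)} (hT0 : MaxPT R T0) {v : ℕ}
    (hv : T0.card + v = Fintype.card β) : ∀ j, j ≤ v → (sset R (v - j)).Nonempty := by
  intro j
  induction j with
  | zero =>
    intro _
    exact ⟨_, ∅, T0, ⟨hT0, by simp⟩, by simpa using hv, rfl⟩
  | succ j ih =>
    intro hj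
    obtain ⟨m, G, T, hT, hb, _⟩ := ih (by omega)
    obtain ⟨y, hy, hyG⟩ := exists_uncovered hT (by omega)
    refine ⟨_, insert y G, T, freeze_st hT hy, ?_, rfl⟩
    rw [card_insert_of_notMem hyG]
    omega

lemma sm_attained {T0 : Finset (α × β)} (hT0 : MaxPT R T0) {v : ℕ}
    (hv : T0.card + v = Fintype.card β) {b : ℕ} (hb : b ≤ v) :
    ∃ G T, St R G T ∧ T.card + G.card + b = Fintype.card β ∧ (SS R G T).card = sm R b := by
  have h := sset_nonempty hT0 hv (v - b) (by omega)
  rw [show v - (v - b) = b by omega] at h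
  exact Nat.sInf_mem h

lemma sm_mono {T0 : Finset (α × β)} (hT0 : MaxPT R T0) {v : ℕ}
    (hv : T0.card + v = Fintype.card β) {b : ℕ} (hb : b < v) : sm R b ≤ sm R (b + 1) := by
  obtain ⟨G, T, hT, hc, he⟩ := sm_attained hT0 hv (b := b + 1) (by omega)
  obtain ⟨y, hy, hyG⟩ := exists_uncovered hT (by omega)
  rw [← he]
  calc sm R b ≤ (SS R (insert y G) T).card := by
        apply sm_le (freeze_st hT hy)
        rw [card_insert_of_notMem hyG]
        omega
    _ ≤ _ := card_le_card (SS_mono (subset_insert _ _))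

lemma le_sm (hrow : ∀ r, Function.Injective (R r)) {T0 : Finset (α × β)} (hT0 : MaxPT R T0) {v : ℕ}
    (hv : T0.card + v = Fintype.card β) (hlt : T0.card < Fintype.card α) {b : ℕ} (hb : b ≤ v) :
    b ≤ sm R b := by
  obtain ⟨G, T, hT, hc, he⟩ := sm_attained hT0 hv hb
  rw [← he]
  have hTc : T.card = T0.card := le_antisymm (hT0.2 _ hT.1.1) (hT.1.2 _ hT0.1)
  obtain ⟨r, hr⟩ : ∃ r, r ∉ rows T := by
    by_contra hcon
    push Not at hcon
    have h1 : (univ : Finset α) ⊆ rows T := fun r _ => hcon r
    have h2 := card_le_card h1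
    rw [card_rows hT.1.1, card_univ] at h2
    omega
  have hd2 : Disjoint (cols T) G := by
    rw [disjoint_left]
    intro a ha hb
    exact hT.2 a hb ha
  have hcard : (univ \ (cols T ∪ G)).card = b := by
    rw [card_sdiff_of_subset (subset_univ _), card_union_of_disjoint hd2, card_cols hT.1.1,
      card_univ]
    omega
  rw [← hcard]
  apply card_le_card_of_injOn (fun y => R r y)
  · intro y hy
    have hy' : y ∉ cols T ∪ G := (mem_sdiff.1 hy).2
    exact mem_SS.2 ⟨T, r, y, Reach.refl, hr, fun h => hy' (mem_union_left _ h),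
      fun h => hy' (mem_union_right _ h), rfl⟩
  · intro y _ y' _ e
    exact hrow r e

lemma SS_card_le {G : Finset β} {T : Finset (α × β)} (hT : St R G T) :
    (SS R G T).card ≤ T.card := by
  rw [← card_MC hT]
  exact card_le_card (filter_subset _ _)

/-- the recursion, relational form -/
lemma seq_exists (hrow : ∀ r, Function.Injective (R r))
    (hcol : ∀ c, Function.Injective (fun r => R r c)) {T0 : Finset (α × β)} (hT0 : MaxPT R T0)
    {v : ℕ} (hv : T0.card + v = Fintype.card β) {u : ℕ} (hu : T0.card + u = Fintype.card α)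
    {b : ℕ} (hb1 : 1 ≤ b) (hb : b ≤ v) :
    ∃ t : ℕ → ℕ, t 0 = 0 ∧ (∀ g, g ≤ b → sm R (b - g) + t g ≤ sm R b) ∧
     ∀ g, g < b → ((sm R b : ℤ) - t g + u) * ((b : ℤ) - g) +
        ((t g : ℤ) + g) * ((sm R (b - 1) : ℤ) + u - 2 * t g)
        ≤ ((sm R b : ℤ) - t g + b - g) * ((t (g + 1) : ℤ) - t g) := by
  classical
  obtain ⟨F, U, hU, hcU, heU⟩ := sm_attained hT0 hv hb
  have hUc : U.card = T0.card := le_antisymm (hT0.2 _ hU.1.1) (hU.1.2 _ hT0.1)
  -- good states at level g
  let Good : ℕ → Finset β × Finset (α × β) → Prop := fun g p =>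
    F ⊆ p.1 ∧ Reach R F U p.2 ∧ St R p.1 p.2 ∧ p.1.card = F.card + g
  have hnext : ∀ g p, g < b → Good g p → ∃ q : Finset β × Finset (α × β), Good (g + 1) q ∧
      (SS R q.1 q.2).card ≤ (SS R p.1 p.2).card ∧
      (((SS R p.1 p.2).card : ℤ) + u) * ((b : ℤ) - g) +
        (((SS R F U).card : ℤ) - (SS R p.1 p.2).card + g) *
          ((sm R (b - 1) : ℤ) + u - 2 * ((SS R F U).card - (SS R p.1 p.2).card)) ≤
      (((SS R p.1 p.2).card : ℤ) + (b - g)) * ((SS R p.1 p.2).card - (SS R q.1 q.2).card) := by
    rintro g ⟨G, T⟩ hg ⟨hFG, hre, hst, hcard⟩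
    have hTc := hre.card hU
    simp only at hFG hre hst hcard hTc ⊢
    have hm : ∀ y T', y ∉ F → Reach R F U T' → y ∉ cols T' →
        sm R (b - 1) ≤ (SS R (insert y F) T').card := by
      intro y T' hy h1 h2
      apply sm_le (freeze_st (h1.st hU) h2)
      rw [card_insert_of_notMem hy, h1.card hU]
      omega
    obtain ⟨y, T', hyG, h1, h2, h3⟩ := step hrow hcol hU (sm R (b - 1)) u (by omega) hm hFG hre hst
      (b - g) (by omega) (by omega)
    refine ⟨(insert y G, T'), ⟨?_, ?_, ?_, ?_⟩, ?_, ?_⟩
    · exact hFG.trans (subset_insert _ _)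
    · exact hre.trans (h1.mono hFG)
    · exact freeze_st (h1.st hst) h2
    · simp only
      rw [card_insert_of_notMem hyG]
      omega
    · simp only
      rw [← SS_congr hst h1]
      exact card_le_card (SS_mono (subset_insert _ _))
    · simp only
      have e1 : ((b - g : ℕ) : ℤ) = (b : ℤ) - g := by
        push_cast [Nat.cast_sub hg.le]; ring
      have e2 : ((G.card : ℤ) - F.card) = g := by rw [hcard]; push_cast; ring
      rw [e1, e2] at h3
      exact h3
  -- build the sequence
  have hstart : Good 0 (F, U) := ⟨Subset.rfl, Reach.refl, hU, rfl⟩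
  let nxt : ℕ → Finset β × Finset (α × β) → Finset β × Finset (α × β) := fun g p =>
    if h : g < b ∧ Good g p then (hnext g p h.1 h.2).choose else p
  let P : ℕ → Finset β × Finset (α × β) := fun g => Nat.rec (F, U) (fun g p => nxt g p) g
  have hP0 : P 0 = (F, U) := rfl
  have hPs : ∀ g, P (g + 1) = nxt g (P g) := fun g => rfl
  have hgood : ∀ g, g ≤ b → Good g (P g) := by
    intro g
    induction g with
    | zero => intro _; rw [hP0]; exact hstart
    | succ g ih =>
      intro hg
      have h1 := ih (by omega)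
      rw [hPs]
      simp only [nxt]
      rw [dif_pos ⟨by omega, h1⟩]
      exact (hnext g (P g) (by omega) h1).choose_spec.1
  have hstep : ∀ g, g < b →
      (SS R (P (g + 1)).1 (P (g + 1)).2).card ≤ (SS R (P g).1 (P g).2).card ∧
      (((SS R (P g).1 (P g).2).card : ℤ) + u) * ((b : ℤ) - g) +
        (((SS R F U).card : ℤ) - (SS R (P g).1 (P g).2).card + g) *
          ((sm R (b - 1) : ℤ) + u - 2 * ((SS R F U).card - (SS R (P g).1 (P g).2).card)) ≤
      (((SS R (P g).1 (P g).2).card : ℤ) + (b - g)) *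
        ((SS R (P g).1 (P g).2).card - (SS R (P (g + 1)).1 (P (g + 1)).2).card) := by
    intro g hg
    have h1 := hgood g hg.le
    rw [hPs]
    simp only [nxt]
    rw [dif_pos ⟨hg, h1⟩]
    exact (hnext g (P g) hg h1).choose_spec.2
  have hle : ∀ g, g ≤ b → (SS R (P g).1 (P g).2).card ≤ (SS R F U).card := by
    intro g
    induction g with
    | zero => intro _; rw [hP0]
    | succ g ih =>
      intro hg
      exact (hstep g (by omega)).1.trans (ih (by omega))
  refine ⟨fun g => (SS R F U).card - (SS R (P g).1 (P g).2).card, ?_, ?_, ?_⟩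
  · simp [hP0]
  · intro g hg
    have h1 := hgood g hg
    have h2 := hle g hg
    have h3 : sm R (b - g) ≤ (SS R (P g).1 (P g).2).card := by
      apply sm_le h1.2.2.1
      have := h1.2.1.card hU
      have h4 := h1.2.2.2
      omega
    rw [← heU]
    simp only
    omega
  · intro g hg
    have h1 := (hstep g hg).2
    have h2 := hle g hg.le
    have h3 := hle (g + 1) hg
    have e1 : (((SS R F U).card - (SS R (P g).1 (P g).2).card : ℕ) : ℤ) =
      (SS R F U).card - (SS R (P g).1 (P g).2).card := by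
      push_cast [Nat.cast_sub h2]; ring
    have e2 : (((SS R F U).card - (SS R (P (g + 1)).1 (P (g + 1)).2).card : ℕ) : ℤ) =
      (SS R F U).card - (SS R (P (g + 1)).1 (P (g + 1)).2).card := by
      push_cast [Nat.cast_sub h3]; ring
    simp only
    rw [← heU, e1, e2]
    calc _ = _ := ?_
      _ ≤ _ := h1
      _ = _ := ?_
    · ring
    · ring

end seq

end LR
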